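import Pool.Agent.helper24.Welsh.Tool2

set_option autoImplicit false

namespace Pool.Agent.helper24.Welsh

open Finset Module

variable {V : Type} [AddCommGroup V] [Module (ZMod 2) V] [DecidableEq V]

omit [DecidableEq V] in
/-- an even sum may be translated -/
theorem RK_even_sum {D : Finset V} (x : V) (h : Even D.card) : sg D = ∑ u ∈ D, (u + x) := by
  rw [Finset.sum_add_distrib, Finset.sum_const]
  obtain ⟨k, hk⟩ := h
  rw [hk, add_smul, dbl, add_zero]
  rfl

theorem rank_ineq [Finite V] {U : Submodule (ZMod 2) V} {Z B D : Finset V} (hB : Ind (cl U Z) B)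
    (h1 : ∀ x ∈ D, x ∉ cl (cl U Z) B) (h2 : ∀ x ∈ D, ∀ y ∈ D, x + y ∈ cl (cl U Z) B)
    {x₁ : V} (hx₁ : x₁ ∈ D) {R : Finset V} (hR : R ⊆ D)
    (hcov : ∀ u ∈ D, u + x₁ ∈ cl U B ∨ ∃ r ∈ R, u + r ∈ cl U B) :
    finrank (ZMod 2) (cl U D) + finrank (ZMod 2) (cl U Z) ≤
      finrank (ZMod 2) (cl (cl U Z) D) + finrank (ZMod 2) U + R.card := by
  classical
  have e1 := Submodule.finrank_sup_add_finrank_inf_eq (cl U Z) (cl U D)
  have e2 : cl U Z ⊔ cl U D = cl (cl U Z) D := by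
    apply le_antisymm
    · exact sup_le (le_cl _ _) (cl_mono_base D (le_cl U Z))
    · rw [cl_le]
      exact ⟨le_sup_left, fun x hx => Submodule.mem_sup_right (self_mem_cl hx)⟩
  rw [e2] at e1
  obtain ⟨T, hT⟩ : ∃ T, T = cl U Z ⊓ cl U D := ⟨_, rfl⟩
  rw [← hT] at e1
  have hTle : T ≤ cl (cl U B) (R.image (· + x₁)) := by
    intro t ht
    rw [hT] at ht
    obtain ⟨ht0, htD⟩ := Submodule.mem_inf.mp ht
    obtain ⟨D', hD', hs⟩ := mem_cl.mp htD
    have h3 : sg D' ∈ cl U Z := (mem_congr (le_cl U Z hs)).mp ht0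
    have h4 : sg D' ∈ cl (cl U Z) B := le_cl _ _ h3
    have h5 : Even D'.card := (parity h1 h2 hD').mp h4
    have h6 : sg D' ∈ cl (cl U B) (R.image (· + x₁)) := by
      rw [RK_even_sum x₁ h5]
      apply Submodule.sum_mem
      intro u hu
      rcases hcov u (hD' hu) with h | ⟨r, hr, h⟩
      · exact le_cl _ _ h
      · have h7 : r + x₁ ∈ cl (cl U B) (R.image (· + x₁)) := self_mem_cl (Finset.mem_image_of_mem _ hr)
        exact mem_trans (le_cl _ _ h) h7
    have h8 : U ≤ cl (cl U B) (R.image (· + x₁)) := (le_cl U B).trans (le_cl _ _)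
    exact (mem_congr (h8 hs)).mpr h6
  have hinf : T ⊓ cl U B ≤ U := by
    intro x hx
    obtain ⟨hxT, hxB⟩ := Submodule.mem_inf.mp hx
    rw [hT] at hxT
    have hx0 := (Submodule.mem_inf.mp hxT).1
    obtain ⟨B', hB', hs⟩ := mem_cl.mp hxB
    have h3 : sg B' ∈ cl U Z := (mem_congr (le_cl U Z hs)).mp hx0
    have h4 := hB B' hB' h3
    rw [h4, sg_empty, add_zero] at hs
    exact hs
  have e3 := Submodule.finrank_sup_add_finrank_inf_eq T (cl U B)
  have h3 : finrank (ZMod 2) (T ⊔ cl U B : Submodule (ZMod 2) V) ≤ finrank (ZMod 2) (cl U B) + R.card := by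
    calc finrank (ZMod 2) (T ⊔ cl U B : Submodule (ZMod 2) V)
        ≤ finrank (ZMod 2) (cl (cl U B) (R.image (· + x₁))) :=
          Submodule.finrank_mono (sup_le hTle (le_cl _ _))
      _ ≤ finrank (ZMod 2) (cl U B) + (R.image (· + x₁)).card := finrank_cl_le _ _
      _ ≤ _ := Nat.add_le_add_left Finset.card_image_le _
  have h4 : finrank (ZMod 2) (T ⊓ cl U B : Submodule (ZMod 2) V) ≤ finrank (ZMod 2) U :=
    Submodule.finrank_mono hinf
  omega

end Pool.Agent.helper24.Welsh
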