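import Pool.Agent.helper24.Welsh.Tool2
import Pool.Agent.helper71.Welsh.CN

set_option autoImplicit false

namespace Pool.Agent.helper24.Welsh

open Finset Module

variable {V : Type} [AddCommGroup V] [Module (ZMod 2) V] [DecidableEq V]

omit [DecidableEq V] in
theorem CZ_inn_mono {G : Finset V} {U U' : Submodule (ZMod 2) V} (h : U ≤ U') : inn G U ⊆ inn G U' := by
  intro x hx
  rw [mem_inn] at hx ⊢
  exact ⟨hx.1, h hx.2⟩

/-- a subset of a circuit mod `U` with complement `Z'` is a circuit modulo the closure of the rest -/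
theorem CZ_circ_rest {U : Submodule (ZMod 2) V} {Z Z0 : Finset V} (hZc : Circ U Z) (h0 : Z0 ⊆ Z)
    (h1 : (Z \ Z0).Nonempty) : Circ (cl U Z0) (Z \ Z0) := by
  refine ⟨h1, ?_, ?_⟩
  · rw [sg_sdiff h0]
    exact (cl U Z0).add_mem (le_cl U Z0 hZc.2.1) (sg_mem_cl (Finset.Subset.refl _))
  · intro A hA hAne hs
    obtain ⟨A0, hA0, hs0⟩ := mem_cl.mp hs
    have hd : Disjoint A A0 := by
      rw [Finset.disjoint_left]
      intro x hx hx'
      exact (Finset.mem_sdiff.mp (hA hx)).2 (hA0 hx')
    rw [← sg_union hd] at hs0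
    have hsub : A ∪ A0 ⊆ Z := Finset.union_subset (hA.trans Finset.sdiff_subset) (hA0.trans h0)
    have := hZc.2.2 _ hsub (hAne.mono Finset.subset_union_left) hs0
    apply Finset.Subset.antisymm hA
    intro x hx
    obtain ⟨hxZ, hx0⟩ := Finset.mem_sdiff.mp hx
    rw [← this] at hxZ
    rcases Finset.mem_union.mp hxZ with h | h
    · exact h
    · exact absurd (hA0 h) hx0

/-- adding an outside element congruent to a part of a circuit gives a circuit -/
theorem CZ_circ_insert {P : Submodule (ZMod 2) V} {Z' A : Finset V} {g : V} (hc : Circ P Z') (hA : A ⊆ Z')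
    (hA' : (Z' \ A).Nonempty) (hgA : g ∉ A) (hg : g + sg A ∈ P) : Circ P (insert g A) := by
  refine ⟨Finset.insert_nonempty _ _, ?_, ?_⟩
  · rw [sg_insert hgA]; exact hg
  · intro E hE hEne hs
    have hAZ : A ≠ Z' := by
      rintro rfl
      simp at hA'
    by_cases hgE : g ∈ E
    · have hEA : E.erase g ⊆ A := by
        intro x hx
        rw [Finset.mem_erase] at hx
        rcases Finset.mem_insert.mp (hE hx.2) with h | h
        · exact absurd h hx.1
        · exact h
      have h1 : sg (E.erase g) + g ∈ P := by rw [sg_erase hgE]; exact hs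
      have h2 : sg (E.erase g) + sg A ∈ P := mem_trans h1 hg
      rcases hc.sides (hEA.trans hA) hA h2 with h | h
      · rw [h, Finset.insert_erase hgE]
      · exfalso
        have : E.erase g = ∅ := by
          rw [Finset.eq_empty_iff_forall_notMem]
          intro x hx
          have := hEA hx
          rw [h, Finset.mem_sdiff] at this
          exact this.2 hx
        rw [this, Finset.sdiff_empty] at h
        exact hAZ h
    · exfalso
      have hEA : E ⊆ A := by
        intro x hx
        rcases Finset.mem_insert.mp (hE hx) with h | h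
        · exact absurd (h ▸ hx) hgE
        · exact h
      have := hc.2.2 E (hEA.trans hA) hEne hs
      apply hAZ
      exact Finset.Subset.antisymm hA (this ▸ hEA)

theorem chz {O U W : Submodule (ZMod 2) V} {G Z : Finset V}
    (hloop : ∀ x ∈ G, x ∉ O) (hsimp : ∀ x ∈ G, ∀ y ∈ G, x + y ∈ O → x = y)
    (hOU : cl O (inn G U) = U) (hne : (inn G U).Nonempty) (hcU : Conn O (inn G U))
    (hZ : Z ⊆ G) (hZc : Circ U Z) (hZ2 : 2 ≤ Z.card) (hW : cl U Z = W) (hcW : Conn O (inn G W))
    (hH : ∀ H, U ≤ H → H ≤ W → H ≠ W → 3 ≤ (out (inn G W) H).card) :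
    ∃ x ∈ Z, ∃ y ∈ Z, x ≠ y ∧ Conn O (inn G (cl U (Z \ {x, y}))) := by
  classical
  have hO : O ≤ U := hOU ▸ le_cl O _
  -- maximal Z0
  let F : Finset (Finset V) := Z.powerset.filter (fun Z0 => 2 ≤ (Z \ Z0).card ∧ Conn O (inn G (cl U Z0)))
  have hFne : F.Nonempty := by
    refine ⟨∅, ?_⟩
    simp only [F, Finset.mem_filter, Finset.mem_powerset, Finset.empty_subset, true_and, Finset.sdiff_empty]
    exact ⟨hZ2, by rw [cl_empty]; exact hcU⟩
  obtain ⟨Z0, hZ0F, hmax⟩ := Finset.exists_max_image F Finset.card hFne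
  simp only [F, Finset.mem_filter, Finset.mem_powerset] at hZ0F hmax
  obtain ⟨hZ0, hZ0c, hZ0conn⟩ := hZ0F
  obtain ⟨Z', hZ'⟩ : ∃ Z', Z' = Z \ Z0 := ⟨_, rfl⟩
  rw [← hZ'] at hZ0c
  rcases Nat.lt_or_ge 2 Z'.card with h3 | h3
  swap
  · have h2 : Z'.card = 2 := le_antisymm h3 hZ0c
    obtain ⟨x, y, hxy, he⟩ := Finset.card_eq_two.mp h2
    have hx : x ∈ Z' := by rw [he]; simp
    have hy : y ∈ Z' := by rw [he]; simp
    refine ⟨x, ?_, y, ?_, hxy, ?_⟩
    · rw [hZ'] at hx; exact (Finset.mem_sdiff.mp hx).1
    · rw [hZ'] at hy; exact (Finset.mem_sdiff.mp hy).1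
    · rw [← he, hZ', Finset.sdiff_sdiff_eq_self hZ0]
      exact hZ0conn
  exfalso
  obtain ⟨P, hP⟩ : ∃ P, P = cl U Z0 := ⟨_, rfl⟩
  rw [← hP] at hZ0conn
  have hZ'Z : Z' ⊆ Z := by rw [hZ']; exact Finset.sdiff_subset
  have hUP : U ≤ P := by rw [hP]; exact le_cl U Z0
  have hne' : Z'.Nonempty := Finset.card_pos.mp (by omega)
  have hcP : Circ P Z' := by
    rw [hP, hZ']
    apply CZ_circ_rest hZc hZ0
    rw [← hZ']; exact hne'
  have hZ0P : Z0 ⊆ inn G P := by
    intro x hx
    rw [mem_inn]
    exact ⟨hZ (hZ0 hx), by rw [hP]; exact self_mem_cl hx⟩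
  have hclP : cl O (inn G P) = P := by
    apply le_antisymm
    · rw [cl_le]
      exact ⟨hO.trans hUP, fun x hx => (mem_inn.mp hx).2⟩
    · conv_lhs => rw [hP]
      rw [cl_le]
      constructor
      · calc U = cl O (inn G U) := hOU.symm
          _ ≤ cl O (inn G P) := cl_mono (CZ_inn_mono hUP)
      · intro x hx
        exact self_mem_cl (hZ0P hx)
  have hneP : (inn G P).Nonempty := hne.mono (CZ_inn_mono hUP)
  have hUW : U ≤ W := by rw [← hW]; exact le_cl U Z
  -- Claim A
  have claimA : ∀ g ∈ G, ∀ A ⊆ Z', A.Nonempty → 2 ≤ (Z' \ A).card → g + sg A ∈ P → g + sg A ∈ O := by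
    intro g hg A hA hAne hA2 hs
    have hA' : (Z' \ A).Nonempty := Finset.card_pos.mp (by omega)
    by_cases hgA : g ∈ A
    · have h1 : sg (A.erase g) ∈ P := by
        have : sg (A.erase g) = g + sg A := by
          rw [← sg_erase hgA, add_comm (sg _) g, add_cancel2]
        rw [this]; exact hs
      rcases hcP.sub_eq ((Finset.erase_subset _ _).trans hA) h1 with h | h
      · have hAg : A = {g} := by
          rw [← Finset.insert_erase hgA, h]; rfl
        rw [hAg, sg_singleton, dbl]
        exact O.zero_mem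
      · exfalso
        have : A = Z' := Finset.Subset.antisymm hA (h ▸ Finset.erase_subset _ _)
        rw [this] at hA'
        simp at hA'
    · by_contra hcon
      have hY : Circ (cl O (inn G P)) (insert g A) := by
        rw [hclP]
        exact CZ_circ_insert hcP hA hA' hgA hs
      have hYO : sg (insert g A) ∉ O := by rw [sg_insert hgA]; exact hcon
      have hc1 := conn_add hZ0conn hneP hY hYO
      have hAG : A ⊆ G := (hA.trans hZ'Z).trans hZ
      have hPQ : P ≤ cl U (Z0 ∪ A) := by rw [hP]; exact cl_mono Finset.subset_union_left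
      have hAQ : sg A ∈ cl U (Z0 ∪ A) := sg_mem_cl Finset.subset_union_right
      have hc2 : Conn O (inn G (cl U (Z0 ∪ A))) := by
        refine conn_closure hc1 (hneP.mono Finset.subset_union_left) ?_ ?_ ?_
        · apply Finset.union_subset (CZ_inn_mono hPQ)
          intro x hx
          rw [mem_inn]
          rcases Finset.mem_insert.mp hx with h | h
          · rw [h]
            refine ⟨hg, ?_⟩
            exact (mem_congr (hPQ hs)).mpr hAQ
          · exact ⟨hAG h, self_mem_cl (Finset.mem_union_right _ h)⟩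
        · intro y hy
          have hy' := (mem_inn.mp hy).2
          have hle : cl U (Z0 ∪ A) ≤ cl O (inn G P ∪ insert g A) := by
            rw [cl_le]
            constructor
            · calc U ≤ P := hUP
                _ = cl O (inn G P) := hclP.symm
                _ ≤ _ := cl_mono Finset.subset_union_left
            · intro x hx
              apply self_mem_cl
              rcases Finset.mem_union.mp hx with h | h
              · exact Finset.mem_union_left _ (hZ0P h)
              · exact Finset.mem_union_right _ (Finset.mem_insert_of_mem h)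
          exact hle hy'
        · intro y hy
          exact hloop y (mem_inn.mp hy).1
      have hdisj : Disjoint Z0 A := by
        rw [Finset.disjoint_left]
        intro x hx hx'
        have := hA hx'
        rw [hZ', Finset.mem_sdiff] at this
        exact this.2 hx
      have h5 := hmax (Z0 ∪ A) ⟨Finset.union_subset hZ0 (hA.trans hZ'Z), by
        have : Z \ (Z0 ∪ A) = Z' \ A := by rw [hZ', sdiff_sdiff_left]; rfl
        rw [this]; exact hA2, hc2⟩
      rw [Finset.card_union_of_disjoint hdisj] at h5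
      have := Finset.card_pos.mpr hAne
      omega
  -- representations
  have hWP : W = cl P Z' := by
    rw [hP, cl_cl, ← hW, hZ', Finset.union_sdiff_of_subset hZ0]
  have rep : ∀ g ∈ inn G W, g ∉ P → ∃ A ⊆ Z', A.Nonempty ∧ (Z' \ A).Nonempty ∧ g + sg A ∈ P ∧ g + sg (Z' \ A) ∈ P := by
    intro g hg hgP
    have hgW := (mem_inn.mp hg).2
    rw [hWP] at hgW
    obtain ⟨A, hA, hs⟩ := mem_cl.mp hgW
    have hs' : g + sg (Z' \ A) ∈ P := by
      rw [sg_sdiff hA, add_comm (sg Z'), ← add_assoc]
      exact P.add_mem hs hcP.2.1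
    refine ⟨A, hA, ?_, ?_, hs, hs'⟩
    · rw [Finset.nonempty_iff_ne_empty]
      rintro rfl
      rw [sg_empty, add_zero] at hs
      exact hgP hs
    · rw [Finset.nonempty_iff_ne_empty]
      intro h
      rw [h, sg_empty, add_zero] at hs'
      exact hgP hs'
  have hcard : ∀ A ⊆ Z', A.card + (Z' \ A).card = Z'.card := by
    intro A hA
    rw [add_comm]; exact Finset.card_sdiff_add_card_eq_card hA
  have hcomp : ∀ A ⊆ Z', Z' \ (Z' \ A) = A := fun A hA => Finset.sdiff_sdiff_eq_self hA
  by_cases hα : sg Z' ∈ O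
  · -- case alpha
    have hZZ : Z' = Z := hZc.2.2 Z' hZ'Z hne' (hO hα)
    have hZ00 : Z0 = ∅ := by
      rw [Finset.eq_empty_iff_forall_notMem]
      intro x hx
      have := hZ0 hx
      rw [← hZZ, hZ', Finset.mem_sdiff] at this
      exact this.2 hx
    have hPU : P = U := by rw [hP, hZ00, cl_empty]
    have hall : ∀ g ∈ inn G W, g ∉ U → g ∈ cl O Z := by
      intro g hg hgU
      rw [← hPU] at hgU
      have hgG := (mem_inn.mp hg).1
      obtain ⟨A, hA, hAne, hAne', hs, hs'⟩ := rep g hg hgU
      have hc := hcard A hA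
      rw [mem_cl]
      by_cases h2 : 2 ≤ (Z' \ A).card
      · exact ⟨A, hA.trans hZ'Z, claimA g hgG A hA hAne h2 hs⟩
      · refine ⟨Z' \ A, Finset.sdiff_subset.trans hZ'Z, claimA g hgG (Z' \ A) Finset.sdiff_subset hAne' ?_ hs'⟩
        rw [hcomp A hA]
        omega
    have hz : ∃ z ∈ Z, z ∉ U := by
      obtain ⟨z, hz⟩ := hZc.1
      exact ⟨z, hz, hZc.not_mem hZ2 hz⟩
    obtain ⟨z, hz, hzU⟩ := hz
    obtain ⟨C, hC, hCs, hCn⟩ := hcW (inn G U) (CZ_inn_mono hUW) hne (by
      intro h
      have : z ∈ inn G W := by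
        rw [mem_inn]
        exact ⟨hZ hz, by rw [← hW]; exact self_mem_cl hz⟩
      rw [← h, mem_inn] at this
      exact hzU this.2)
    apply hCn
    have h1 : sg (C \ inn G U) ∈ cl O Z := by
      apply Submodule.sum_mem
      intro g hg
      obtain ⟨hgC, hgU⟩ := Finset.mem_sdiff.mp hg
      have hgW := hC hgC
      apply hall g hgW
      intro h
      exact hgU (mem_inn.mpr ⟨(mem_inn.mp hgW).1, h⟩)
    have h2 : sg (C ∩ inn G U) ∈ U := by
      apply Submodule.sum_mem
      intro g hg
      exact (mem_inn.mp (Finset.mem_inter.mp hg).2).2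
    have h3 : sg (C ∩ inn G U) + sg (C \ inn G U) ∈ O := by rw [sg_inter_sdiff]; exact hCs
    have h4 : sg (C \ inn G U) ∈ U := (mem_congr (hO h3)).mp h2
    obtain ⟨B, hB, hBs⟩ := mem_cl.mp h1
    have h5 : sg B ∈ U := (mem_congr (hO hBs)).mp h4
    have h6 : sg B ∈ O := by
      rcases hZc.sub_eq hB h5 with h | h
      · rw [h, sg_empty]; exact O.zero_mem
      · rw [h, ← hZZ]; exact hα
    have h7 : sg (C \ inn G U) ∈ O := (mem_congr hBs).mpr h6
    exact (mem_congr h3).mpr h7
  · -- case beta
    have hall : ∀ g ∈ inn G W, g ∉ P → g ∈ Z' := by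
      intro g hg hgP
      have hgG := (mem_inn.mp hg).1
      obtain ⟨A, hA, hAne, hAne', hs, hs'⟩ := rep g hg hgP
      have hc := hcard A hA
      have key : ∀ B ⊆ Z', B.card = 1 → g + sg B ∈ P → g ∈ Z' := by
        intro B hB hB1 hBs
        have hc := hcard B hB
        have h1 := claimA g hgG B hB (Finset.card_pos.mp (by omega)) (by omega) hBs
        obtain ⟨z, hz⟩ := Finset.card_eq_one.mp hB1
        rw [hz, sg_singleton] at h1
        have hzZ : z ∈ Z' := hB (by rw [hz]; simp)
        rw [hsimp g hgG z (hZ (hZ'Z hzZ)) h1]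
        exact hzZ
      by_cases hA1 : A.card = 1
      · exact key A hA hA1 hs
      by_cases hA2 : (Z' \ A).card = 1
      · exact key _ Finset.sdiff_subset hA2 hs'
      exfalso
      have := Finset.card_pos.mpr hAne
      have := Finset.card_pos.mpr hAne'
      have e1 := claimA g hgG A hA hAne (by omega) hs
      have e2 := claimA g hgG _ Finset.sdiff_subset hAne' (by rw [hcomp A hA]; omega) hs'
      have e3 : sg A + sg (Z' \ A) ∈ O := mem_trans (mem_swap e1) e2
      apply hα
      rw [sg_sdiff hA, add_comm (sg Z'), add_cancel2] at e3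
      exact e3
    obtain ⟨x, hx, y, hy, hxy⟩ := Finset.one_lt_card.mp (by omega : 1 < Z'.card)
    have hxZ := hZ'Z hx
    have hyZ := hZ'Z hy
    have hxH : x ∉ cl U (Z \ {x, y}) := by
      intro h
      obtain ⟨A, hA, hs⟩ := mem_cl.mp h
      have hxA : x ∉ A := by
        intro h
        have := hA h
        simp at this
      have hyA : y ∉ A := by
        intro h
        have := hA h
        simp at this
      rw [← sg_insert hxA] at hs
      have := hZc.2.2 (insert x A) (Finset.insert_subset hxZ (hA.trans Finset.sdiff_subset)) (Finset.insert_nonempty _ _) hs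
      rw [← this, Finset.mem_insert] at hyZ
      rcases hyZ with h | h
      · exact hxy h.symm
      · exact hyA h
    have hHW : cl U (Z \ {x, y}) ≤ W := by rw [← hW]; exact cl_mono Finset.sdiff_subset
    have h1 := hH (cl U (Z \ {x, y})) (le_cl _ _) hHW (by
      intro h
      apply hxH
      rw [h, ← hW]
      exact self_mem_cl hxZ)
    have h2 : out (inn G W) (cl U (Z \ {x, y})) ⊆ {x, y} := by
      intro g hg
      obtain ⟨hgW, hgH⟩ := mem_out.mp hg
      by_contra hgxy
      have hPH : P ≤ cl U (Z \ {x, y}) := by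
        rw [hP]
        apply cl_mono
        intro u hu
        rw [Finset.mem_sdiff]
        refine ⟨hZ0 hu, ?_⟩
        intro h
        rw [Finset.mem_insert, Finset.mem_singleton] at h
        rcases h with h | h
        · rw [← h, hZ', Finset.mem_sdiff] at hx
          exact hx.2 hu
        · rw [← h, hZ', Finset.mem_sdiff] at hy
          exact hy.2 hu
      have hgZ' := hall g hgW (fun h => hgH (hPH h))
      apply hgH
      apply self_mem_cl
      rw [Finset.mem_sdiff]
      exact ⟨hZ'Z hgZ', hgxy⟩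
    have h3 := Finset.card_le_card h2
    have h4 := Finset.card_le_two (a := x) (b := y)
    omega

end Pool.Agent.helper24.Welsh
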